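import Pool.Agent.H95.DR.Targets
import Pool.Agent.H11.DF.NCO
import Pool.Agent.H33.DF.NC2
import Pool.Agent.H34.DF.NF2
import Pool.Agent.H61.DF.NMU
import Pool.Agent.H35.DF.NSP
import Pool.Agent.H39.DF.NTR
import Pool.Agent.H48.DF.NPB
import Pool.Agent.H54.DF.NFS
import Pool.Agent.H55.DF.NMO
import Pool.Agent.H55.FM.SFS
import Pool.Agent.H61.FM.SUP
import Pool.Agent.H77.DF.NAB
import Pool.Agent.H77.DF.NDV
import Pool.Agent.H78.DF.NCR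
import Pool.Agent.H86.DF.NF1
import Pool.Agent.H86.FM.SQD
import Pool.Agent.H98.DF.NMT

/-!
# The fourth moment for real quadratic fields: assembly of the analytic part
-/

set_option autoImplicit false

namespace Pool.Agent.H61.DF

open Pool.Agent.H31.CN Pool.Agent.H89.FM Pool.Agent.H61.FM Pool.Agent.H89.FC Pool.Agent.H89.DF

theorem a_MULr : T_MULr := pf_MULr

theorem partN (hTMF : T_TMFr) (hLFK : T_LFKr) (hHBD : T_HBDr) (hGML : T_GMLc) (hKRB : T_KRBr)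
    (hCRL : T_CRL) (hNID : Pool.Agent.H95.DR.T_NID) : T_FM2r ∧ T_CORr ∧ T_CO2r := by
  have hDVB : T_DVBr := Pool.Agent.H77.DF.pf_DVBr hNID
  have hSPT : T_SPTr := Pool.Agent.H35.DF.pf_SPTr hDVB
  have hABS : T_ABSr := Pool.Agent.H77.DF.pf_ABSr hSPT
  have hMOS : T_MOSr := Pool.Agent.H55.DF.pf_MOSr hTMF a_MULr Pool.Agent.H86.FM.pf_SQD
    Pool.Agent.H55.FM.pf_SFS hDVB
  have hPBD : T_PBDr := Pool.Agent.H48.DF.pf_PBDr hLFK hKRB hCRL hABS hGML hSPT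
  have hTRB : T_TRBr := Pool.Agent.H39.DF.pf_TRBr hPBD hSPT
  have hCRD : T_CRDr := Pool.Agent.H78.DF.pf_CRDr hHBD
  have hMOT : T_MOTr := Pool.Agent.H98.DF.pf_MOTr hMOS hSPT hTRB hCRD
  have hFMS : T_FMSr := Pool.Agent.H54.DF.pf_FMSr hMOT hPBD hSPT
  have hFM1 : T_FM1r := Pool.Agent.H86.DF.pf_FM1r Pool.Agent.H61.FM.pf_SUP hFMS hTRB
  have hFM2 : T_FM2r := Pool.Agent.H34.DF.pf_FM2r hFM1
  exact ⟨hFM2, Pool.Agent.H11.DF.pf_CORr hFM2, Pool.Agent.H33.DF.pf_CO2r hFM2⟩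

end Pool.Agent.H61.DF
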