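import Pool.Agent.H89.DF.TargetsF

/-!
# Real quadratic fields: the analytic part, from the twisted second moment to the fourth moment
-/

set_option autoImplicit false

open MeasureTheory Set Filter NumberField
open scoped Real nonZeroDivisors

namespace Pool.Agent.H61.DF

open Pool.Agent.H31.CN Pool.Agent.H89.FM Pool.Agent.H61.FM Pool.Agent.H89.FC Pool.Agent.H89.DF

/-- (DVBr) the coefficients are small. -/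
def T_DVBr : Prop :=
  ∀ ε : ℝ, 0 < ε → ∃ C : ℝ, 0 < C ∧ ∀ (K : Type) [Field K] [NumberField K] (σ σ' : K →+* ℝ)
    (D f κ : ℕ) (ν : ℝ) (ψ : Ideal (𝓞 K) → ℂ), RQ K D σ σ' → RCr K σ σ' f κ ν ψ →
    ∀ n : ℕ, 1 ≤ n → ‖lc ψ n‖ ≤ C * (n : ℝ) ^ ε

/-- (MULr) the coefficients are multiplicative. -/
def T_MULr : Prop :=
  ∀ (K : Type) [Field K] [NumberField K] (σ σ' : K →+* ℝ) (f κ : ℕ) (ν : ℝ)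
    (ψ : Ideal (𝓞 K) → ℂ), RCr K σ σ' f κ ν ψ →
    lc ψ 1 = 1 ∧ ∀ a b : ℕ, a.Coprime b → lc ψ (a * b) = lc ψ a * lc ψ b

/-- (MOSr) the second moment with partial sums of the coefficients. -/
def T_MOSr : Prop :=
  ∀ ε : ℝ, 0 < ε → ∃ κ₀ : ℝ, 0 < κ₀ ∧ κ₀ ≤ 1 / 8 ∧ ∃ δ : ℝ, 0 < δ ∧ δ ≤ 1 ∧
    ∃ (C : ℝ) (k : ℕ), 0 < C ∧
    ∀ (s : ℂ) (X V x : ℝ) (K : ℕ → Type) [∀ D, Field (K D)] [∀ D, NumberField (K D)]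
      (σ σ' : ∀ D, K D →+* ℝ) (S : Finset (IXr K)) (f κ : IXr K → ℕ) (ν : IXr K → ℝ)
      (F : IXr K → ℂ → ℂ),
      |s.re - 1 / 2| ≤ κ₀ → 1 ≤ X → 1 ≤ V → 1 ≤ x → x ≤ X ^ ((1 + δ) / 2) →
      Famr K σ σ' S f κ ν F (X / 4) X V →
      ∑ y ∈ S, ‖Sc y.2 x‖ ^ 2 * ‖F y s‖ ^ 2 ≤
        C * (1 + |s.im| + V) ^ k * X ^ (3 / 2 + ε) * x ^ (1 + ε)

/-- (SPTr) the trivial bound for the partial sums. -/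
def T_SPTr : Prop :=
  ∃ C : ℝ, 0 < C ∧ ∀ (K : Type) [Field K] [NumberField K] (σ σ' : K →+* ℝ) (D f κ : ℕ) (ν : ℝ)
    (ψ : Ideal (𝓞 K) → ℂ), RQ K D σ σ' → RCr K σ σ' f κ ν ψ →
    Measurable (Sc ψ) ∧ ∀ x : ℝ, 1 ≤ x → ‖Sc ψ x‖ ≤ C * x ^ 2

/-- (ABSr) Abel summation for sums over ideals. -/
def T_ABSr : Prop :=
  ∀ (K : Type) [Field K] [NumberField K] (σ σ' : K →+* ℝ) (D f κ : ℕ) (ν : ℝ)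
    (ψ : Ideal (𝓞 K) → ℂ), RQ K D σ σ' → RCr K σ σ' f κ ν ψ → ∀ (g : ℝ → ℂ) (M c : ℝ)
    (a : ℂ), 0 < c → ContinuousOn (deriv g) (Ici 1) →
    (∀ x : ℝ, 1 ≤ x → DifferentiableAt ℝ g x ∧ ‖g x‖ ≤ M * Real.exp (-(c * x)) ∧
      ‖deriv g x‖ ≤ M * Real.exp (-(c * x))) →
    HasSum (fun J : (Ideal (𝓞 K))⁰ => ψ J * g (nm J)) a →
    IntegrableOn (fun x : ℝ => Sc ψ x * deriv g x) (Ioi 1) ∧
      a = -∫ x in Ioi (1 : ℝ), Sc ψ x * deriv g x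

/-- (PBDr) the bound for the `L`-function by the partial sums of the coefficients. -/
def T_PBDr : Prop :=
  ∃ (C : ℝ) (k j : ℕ) (c : ℝ), 0 < C ∧ 0 < c ∧ ∀ (K : Type) [Field K] [NumberField K]
    (σ σ' : K →+* ℝ) (D f κ : ℕ) (ν : ℝ) (ψ : Ideal (𝓞 K) → ℂ) (F : ℂ → ℂ),
    RQ K D σ σ' → RCr K σ σ' f κ ν ψ → IsL ψ F → ∀ (s : ℂ) (κ₀ : ℝ),
    |s.re - 1 / 2| ≤ κ₀ → κ₀ ≤ 1 / 8 →
    IntegrableOn (fun x : ℝ => ‖Sc ψ x‖ * x ^ (-(3 / 2) + κ₀) *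
      Real.exp (-(c * x / (f * Real.sqrt D * (1 + |s.im| + |ν|) ^ j)))) (Ioi 1) ∧
    ‖F s‖ ≤ C * (1 + |s.im| + |ν|) ^ k * ((D : ℝ) * (f : ℝ) ^ 2) ^ κ₀ *
      ∫ x in Ioi (1 : ℝ), ‖Sc ψ x‖ * x ^ (-(3 / 2) + κ₀) *
        Real.exp (-(c * x / (f * Real.sqrt D * (1 + |s.im| + |ν|) ^ j)))

/-- (TRBr) the trivial bound for the `L`-function. -/
def T_TRBr : Prop :=
  ∃ (C : ℝ) (k : ℕ), 0 < C ∧ ∀ (K : Type) [Field K] [NumberField K]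
    (σ σ' : K →+* ℝ) (D f κ : ℕ) (ν : ℝ) (ψ : Ideal (𝓞 K) → ℂ) (F : ℂ → ℂ),
    RQ K D σ σ' → RCr K σ σ' f κ ν ψ → IsL ψ F → ∀ s : ℂ,
    |s.re - 1 / 2| ≤ 1 / 8 →
    ‖F s‖ ≤ C * (1 + |s.im| + |ν|) ^ k * ((D : ℝ) * (f : ℝ) ^ 2) ^ 2

/-- (CRDr) the trivial bound for the size of a family. -/
def T_CRDr : Prop :=
  ∃ C : ℝ, 0 < C ∧ ∀ (X V : ℝ) (K : ℕ → Type) [∀ D, Field (K D)] [∀ D, NumberField (K D)]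
      (σ σ' : ∀ D, K D →+* ℝ) (S : Finset (IXr K)) (f κ : IXr K → ℕ) (ν : IXr K → ℝ)
      (F : IXr K → ℂ → ℂ), 1 ≤ X → 1 ≤ V → Famr K σ σ' S f κ ν F 0 X V →
      (S.card : ℝ) ≤ C * V ^ 2 * X ^ 3

/-- (MOTr) the second moment with partial sums of any length. -/
def T_MOTr : Prop :=
  ∀ ε : ℝ, 0 < ε → ∃ κ₀ : ℝ, 0 < κ₀ ∧ κ₀ ≤ 1 / 8 ∧ ∀ (c : ℝ) (j : ℕ), 0 < c →
    ∃ (C : ℝ) (k : ℕ), 0 < C ∧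
    ∀ (s : ℂ) (X V x : ℝ) (K : ℕ → Type) [∀ D, Field (K D)] [∀ D, NumberField (K D)]
      (σ σ' : ∀ D, K D →+* ℝ) (S : Finset (IXr K)) (f κ : IXr K → ℕ) (ν : IXr K → ℝ)
      (F : IXr K → ℂ → ℂ),
      |s.re - 1 / 2| ≤ κ₀ → 1 ≤ X → 1 ≤ V → 1 ≤ x → Famr K σ σ' S f κ ν F (X / 4) X V →
      (∑ y ∈ S, ‖Sc y.2 x‖ ^ 2 * ‖F y s‖ ^ 2) *
        Real.exp (-(c * x / (Real.sqrt X * (1 + |s.im| + V) ^ j))) ≤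
        C * (1 + |s.im| + V) ^ k * X ^ (3 / 2 + ε) * x ^ (1 + ε)

/-- (FMSr) the fourth moment at a point near the critical line, bounded spectral parameters. -/
def T_FMSr : Prop :=
  ∀ ε : ℝ, 0 < ε → ∃ κ₀ : ℝ, 0 < κ₀ ∧ κ₀ ≤ 1 / 8 ∧ ∃ (C : ℝ) (k : ℕ), 0 < C ∧
    ∀ (s : ℂ) (X V : ℝ) (K : ℕ → Type) [∀ D, Field (K D)] [∀ D, NumberField (K D)]
      (σ σ' : ∀ D, K D →+* ℝ) (S : Finset (IXr K)) (f κ : IXr K → ℕ) (ν : IXr K → ℝ)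
      (F : IXr K → ℂ → ℂ),
      |s.re - 1 / 2| ≤ κ₀ → 1 ≤ X → 1 ≤ V → Famr K σ σ' S f κ ν F (X / 4) X V →
      ∑ y ∈ S, ‖F y s‖ ^ 4 ≤ C * (1 + |s.im| + V) ^ k * X ^ (3 / 2 + ε)

/-- (FM1r) the fourth moment, all spectral parameters, levels in `[X / 4, X]`. -/
def T_FM1r : Prop :=
  ∀ ε : ℝ, 0 < ε → ∃ (C : ℝ) (A : ℕ), 0 < C ∧
    ∀ (X V : ℝ) (K : ℕ → Type) [∀ D, Field (K D)] [∀ D, NumberField (K D)]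
      (σ σ' : ∀ D, K D →+* ℝ) (S : Finset (IXr K)) (f κ : IXr K → ℕ) (ν : IXr K → ℝ)
      (F : IXr K → ℂ → ℂ) (t : IXr K → ℝ),
      1 ≤ X → Famr K σ σ' S f κ ν F (X / 4) X V →
      ∑ y ∈ S, (‖F y (1 / 2 + t y * Complex.I)‖ / (1 + |t y| + |ν y|) ^ A) ^ 4 ≤
        C * X ^ (3 / 2 + ε)

end Pool.Agent.H61.DF
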